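import Pool.Agent.Lib.MP_fb3619_al.H47.Main47

/-!
# MP_fb3619_al: periodic groups with a four-subgroup, nontrivial centralizer

`G` periodic, `R` a four-subgroup with `N_G(R) = C_G(R)` whose centralizer has no involutions
outside `R`, `t` an involution of `R`. If for both `r ∈ R`, `r ≠ 1, t`, the elements of odd order
of `C_G(r)` which are inverted by `t` commute, and if `C_G(R)` is finite (or only `C_G(t)` locally
finite), then `G` is locally finite.
-/

universe u

namespace Pool.Agent.Results.MP_fb3619_al.CommutingInverted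

/-- Let `G` be a periodic group, `R` a subgroup of order 4 and exponent 2 with `N_G(R) = C_G(R)`,
such that every involution of `C_G(R)` lies in `R`, and let `1 ≠ t ∈ R`. Suppose that for both
`r ∈ R` different from `1` and `t` any two elements of odd order of `C_G(r)` which are inverted by
`t` commute. If `C_G(R)` is finite, or if `C_G(t)` is locally finite, then `G` is locally finite. -/
theorem result (G : Type u) [Group G] (hG : Monoid.IsTorsion G) (R : Subgroup G)
    (hR4 : Nat.card R = 4) (hR2 : ∀ r ∈ R, r ^ 2 = 1)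
    (hinv : ∀ g ∈ Subgroup.centralizer (R : Set G), g ^ 2 = 1 → g ∈ R)
    (hnor : ∀ g : G, (∀ r ∈ R, g⁻¹ * r * g ∈ R) → g ∈ Subgroup.centralizer (R : Set G))
    (t : G) (ht : t ∈ R) (ht1 : t ≠ 1)
    (hcomm : ∀ r ∈ R, r ≠ 1 → r ≠ t → ∀ u v : G, Odd (orderOf u) → Odd (orderOf v) →
      u * r = r * u → v * r = r * v → t⁻¹ * u * t = u⁻¹ → t⁻¹ * v * t = v⁻¹ → u * v = v * u)
    (hfin : Finite (Subgroup.centralizer (R : Set G)) ∨
      ∀ H ≤ Subgroup.centralizer ({t} : Set G), H.FG → Finite H) :
    ∀ H : Subgroup G, H.FG → Finite H :=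
  Pool.Agent.FourGp.H47.part4_D G
    (fun g => by
      obtain ⟨n, hn, h⟩ := isOfFinOrder_iff_pow_eq_one.1 (hG g)
      exact ⟨n, hn, h⟩) R hR4 (fun r hr => by rw [← pow_two]; exact hR2 r hr)
    (fun g hg h => hinv g hg (by rw [pow_two]; exact h)) hnor t ht ht1 hcomm hfin

end Pool.Agent.Results.MP_fb3619_al.CommutingInverted
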