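import Pool.Agent.Lib.MP_fb3619_al.SR.Main

/-!
# MP_fb3619_al: periodic groups with a four-subgroup of finite centralizer and a normal series

A periodic group `G` with a four-subgroup `R` with finite centralizer is locally finite if it has an
ascending normal series (as long as the members meet `R` trivially) whose factors are locally
finite groups, 2-groups, groups without involutions, groups on which some element of `R` has finite
centralizer, or groups in which the four-group is self-normalizing.
-/

universe u

namespace Pool.Agent.Results.MP_fb3619_al.NormalSeries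

/-- Let `G` be a periodic group, `R` a subgroup of order 4 and exponent 2 with finite centralizer,
and `C` a set of normal subgroups of `G` which contains the trivial subgroup and is closed under
unions of nonempty chains. Suppose that every `M ∈ C` with `M ∩ R = 1` is properly contained in some
`N ∈ C` such that one of the following holds.
(i) `N/M` is locally finite (`[S : S ∩ M]` is finite for every finitely generated `S ≤ N`).
(ii) `N/M` is a 2-group.
(iii) `N/M` has no involutions.
(iv) For some `r ∈ R` only finitely many elements of `N/M` commute with `rM`.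
(v) `RM/M` is self-normalizing in `RN/M`.
Then `G` is locally finite. -/
theorem result (G : Type u) [Group G] (hG : Monoid.IsTorsion G) (R : Subgroup G)
    (hR4 : Nat.card R = 4) (hR2 : ∀ r ∈ R, r ^ 2 = 1)
    (hfin : Finite (Subgroup.centralizer (R : Set G)))
    (C : Set (Subgroup G)) (hn : ∀ M ∈ C, M.Normal) (h0 : ⊥ ∈ C)
    (hs : ∀ c ⊆ C, c.Nonempty → IsChain (· ≤ ·) c → sSup c ∈ C)
    (h : ∀ M ∈ C, M ⊓ R = ⊥ → ∃ N ∈ C, M < N ∧
      ((∀ S ≤ N, S.FG → M.relIndex S ≠ 0) ∨
        (∀ n ∈ N, ∃ k : ℕ, n ^ 2 ^ k ∈ M) ∨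
        (∀ n ∈ N, n ^ 2 ∈ M → n ∈ M) ∨
        (∃ r ∈ R, ((fun g : G => (g : G ⧸ M)) '' {n | n ∈ N ∧ n⁻¹ * r⁻¹ * n * r ∈ M}).Finite) ∨
        ∀ n ∈ N, (∀ r ∈ R, n⁻¹ * r * n ∈ R ⊔ M) → n ∈ R ⊔ M)) :
    ∀ H : Subgroup G, H.FG → Finite H :=
  Pool.Agent.FourGp.SR.tcp' G
    (fun g => by
      obtain ⟨n, hn, h⟩ := isOfFinOrder_iff_pow_eq_one.1 (hG g)
      exact ⟨n, hn, h⟩) R hR4 hR2 hfin C hn h0 hs h

end Pool.Agent.Results.MP_fb3619_al.NormalSeries
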